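import Pool.Agent.Run7.h24.MD.BIG

/-! # Project MD (helper473), piece ABS (helper24): absolute convergence in blocks -/

set_option autoImplicit false

namespace Pool.Agent.Run7.h24.MD

open Complex Filter Topology MeasureTheory Set
open Pool.Agent.Q48.MDS Pool.Agent.N879.QM Pool.Agent.Run7.h473.MD

/-- the constant `ζ(1 + κ)` -/
noncomputable def Zc (κ : ℝ) : ℝ := ∑' n : ℕ, (n : ℝ) ^ (-(1 + κ))

theorem Zc_summable {κ : ℝ} (h : 0 < κ) : Summable fun n : ℕ => (n : ℝ) ^ (-(1 + κ)) := by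
  rw [Real.summable_nat_rpow]; linarith

theorem Zc_nonneg (κ : ℝ) : 0 ≤ Zc κ := tsum_nonneg fun n => Real.rpow_nonneg (Nat.cast_nonneg _) _

theorem LL_le (d : ℕ) (h : Is 1 d) {κ : ℝ} (hκ : 0 < κ) {s : ℂ} (hs : 1 + κ ≤ s.re) : ‖LL 1 d s‖ ≤ Zc κ := by
  have hd : d ≠ 0 := by have := h.1; omega
  haveI : NeZero d := ⟨hd⟩
  have e : LL 1 d s = LSeries (fun n => ch 1 d (n : ZMod d)) s := by
    unfold LL
    rw [dif_pos hd]
    exact DirichletCharacter.LFunction_eq_LSeries _ (by linarith)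
  rw [e]
  have hb : ∀ n : ℕ, ‖LSeries.term (fun n => ch 1 d (n : ZMod d)) s n‖ ≤ (n : ℝ) ^ (-(1 + κ)) := by
    intro n
    rw [LSeries.norm_term_eq]
    split_ifs with h0
    · exact Real.rpow_nonneg (Nat.cast_nonneg _) _
    · have hn : (1 : ℝ) ≤ n := by exact_mod_cast Nat.one_le_iff_ne_zero.2 h0
      have h1 : ‖ch 1 d (n : ZMod d)‖ ≤ 1 := DirichletCharacter.norm_le_one _ _
      calc ‖ch 1 d (n : ZMod d)‖ / (n : ℝ) ^ s.re ≤ 1 / (n : ℝ) ^ s.re := by
            gcongr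
        _ = (n : ℝ) ^ (-s.re) := by rw [Real.rpow_neg (by linarith), one_div]
        _ ≤ _ := Real.rpow_le_rpow_of_exponent_le hn (by linarith)
  exact tsum_of_norm_bounded (Zc_summable hκ).hasSum hb

/-- the product of at most `r` nonnegative numbers -/
theorem prod_le_sum {ι : Type} (s : Finset ι) (r : ℕ) (hs : s.card ≤ r) (x : ι → ℝ) (hx : ∀ i ∈ s, 0 ≤ x i) :
    ∏ i ∈ s, x i ≤ 1 + ∑ i ∈ s, x i ^ r := by
  classical
  by_cases h : ∀ i ∈ s, x i ≤ 1
  · have h1 : ∏ i ∈ s, x i ≤ 1 := Finset.prod_le_one hx h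
    have h2 : 0 ≤ ∑ i ∈ s, x i ^ r := Finset.sum_nonneg fun i hi => pow_nonneg (hx i hi) _
    linarith
  · push Not at h
    obtain ⟨i1, hi1, h1⟩ := h
    obtain ⟨i0, hi0, hmax⟩ := s.exists_max_image x ⟨i1, hi1⟩
    have h2 : 1 ≤ x i0 := h1.le.trans (hmax i1 hi1)
    have h3 : ∏ i ∈ s, x i ≤ x i0 ^ s.card := by
      rw [← Finset.prod_const]
      exact Finset.prod_le_prod hx hmax
    have h4 : x i0 ^ s.card ≤ x i0 ^ r := pow_le_pow_right₀ h2 hs
    have h5 : x i0 ^ r ≤ ∑ i ∈ s, x i ^ r :=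
      Finset.single_le_sum (f := fun i => x i ^ r) (fun i hi => pow_nonneg (hx i hi) _) hi0
    linarith

/-- the dyadic blocks -/
noncomputable def blk (k M m : ℕ) (z : Fin (k + 1) → ℂ) : ℂ := ∑ d ∈ Finset.Ico (2 ^ m) (2 ^ (m + 1)), cd k M d z

noncomputable def nblk (k M m : ℕ) (z : Fin (k + 1) → ℂ) : ℝ :=
  ∑ d ∈ Finset.Ico (2 ^ m) (2 ^ (m + 1)), ‖cd k M d z‖

theorem blk_le (k M m : ℕ) (z : Fin (k + 1) → ℂ) : ‖blk k M m z‖ ≤ nblk k M m z := norm_sum_le _ _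

theorem isOpen_reg (k : ℕ) (I : Finset (Fin k)) : IsOpen (reg k I) := by
  have e : reg k I = {p | (1 : ℝ) < p 0} ∩ ⋂ j : Fin k, {p | (if j ∈ I then (1 / 2 : ℝ) else 1) < p j.succ} := by
    ext p; simp [reg]
  rw [e]
  exact (isOpen_lt continuous_const (continuous_apply 0)).inter
    (isOpen_iInter_of_finite fun j => isOpen_lt continuous_const (continuous_apply _))

/-- the main estimate -/
theorem main_est (r : ℕ) (hM : S_MOM r) (k M : ℕ) (I : Finset (Fin k)) (hI : I.card ≤ r)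
    (K : Set (Fin (k + 1) → ℝ)) (hK : K ⊆ reg k I) (hc : IsCompact K) :
    ∃ (C : ℝ) (N : ℕ) (ε : ℝ), 0 < ε ∧ 0 ≤ C ∧ ∀ (m : ℕ) (z : Fin (k + 1) → ℂ), (fun i => (z i).re) ∈ K →
      nblk k M m z ≤ C * (1 + ‖fun i => (z i).im‖) ^ N * (2 : ℝ) ^ (-(ε * m)) := by
  classical
  obtain ⟨e0, he0, h0⟩ := exists_pos_le hc (f := fun p : Fin (k + 1) → ℝ => p 0 - 1)
    ((continuous_apply 0).sub continuous_const) (fun p hp => by have := (hK hp).1; linarith)
  choose δ hδ h1 using fun j : Fin k => exists_pos_le hc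
    (f := fun p : Fin (k + 1) → ℝ => p j.succ - (if j ∈ I then (1 / 2 : ℝ) else 1))
    ((continuous_apply _).sub continuous_const) (fun p hp => by have := (hK hp).2 j; linarith)
  obtain ⟨κ, hκ, h2⟩ := fin_pos δ hδ
  obtain ⟨C, N, hC⟩ := hM κ (e0 / 2) hκ (by linarith)
  set C' := |C| with hC'
  have hZ := Zc_nonneg κ
  refine ⟨(1 + Zc κ) ^ k * (2 + r * C' * 2 ^ (1 + e0 / 2)), N, e0 / 2, by linarith, by positivity, ?_⟩
  intro m z hz
  set Y := ‖fun i => (z i).im‖ with hY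
  have hY0 : 0 ≤ Y := norm_nonneg _
  have hw : 1 + e0 ≤ (z 0).re := by
    have : e0 ≤ (z 0).re - 1 := h0 _ hz
    linarith
  have hsI : ∀ j ∈ I, 1 / 2 + κ ≤ (z j.succ).re := by
    intro j hj
    have h3 : δ j ≤ (z j.succ).re - (if j ∈ I then (1 / 2 : ℝ) else 1) := h1 j _ hz
    rw [if_pos hj] at h3
    have := h2 j
    linarith
  have hsI' : ∀ j, j ∉ I → 1 + κ ≤ (z j.succ).re := by
    intro j hj
    have h3 : δ j ≤ (z j.succ).re - (if j ∈ I then (1 / 2 : ℝ) else 1) := h1 j _ hz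
    rw [if_neg hj] at h3
    have := h2 j
    linarith
  have hX1 : (1 : ℝ) ≤ 2 ^ (m + 1) := one_le_pow₀ (by norm_num)
  -- one term
  have hterm : ∀ d ∈ Finset.Ico (2 ^ m) (2 ^ (m + 1)), ‖cd k M d z‖ ≤
      (2 : ℝ) ^ (-((1 + e0) * m)) * ((1 + Zc κ) ^ k * (1 + ∑ j ∈ I, if Is 1 d then ‖LL 1 d (z j.succ)‖ ^ r else 0)) := by
    intro d hd
    rw [Finset.mem_Ico] at hd
    by_cases h : Is 1 d
    · have hd1 : ((2 : ℝ) ^ m) ≤ d := by exact_mod_cast hd.1
      have hdp : (0 : ℝ) < 2 ^ m := by positivity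
      have hd1' : (1 : ℝ) ≤ d := le_trans (one_le_pow₀ (by norm_num)) hd1
      refine (norm_cd_le k M d h z).trans (mul_le_mul ?_ ?_ (Finset.prod_nonneg fun _ _ => norm_nonneg _)
        (Real.rpow_nonneg (by norm_num) _))
      · calc (d : ℝ) ^ (-(z 0).re) ≤ (d : ℝ) ^ (-(1 + e0)) :=
              Real.rpow_le_rpow_of_exponent_le hd1' (by linarith)
          _ ≤ ((2 : ℝ) ^ m) ^ (-(1 + e0)) := Real.rpow_le_rpow_of_nonpos hdp hd1 (by linarith)
          _ = (2 : ℝ) ^ (-((1 + e0) * m)) := by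
              rw [← Real.rpow_natCast, ← Real.rpow_mul (by norm_num)]
              congr 1
              ring
      · simp only [h, if_true]
        rw [← Finset.prod_mul_prod_compl I]
        have a1 := prod_le_sum I r hI (fun j => ‖LL 1 d (z j.succ)‖) (fun _ _ => norm_nonneg _)
        have a2 : ∏ j ∈ Iᶜ, ‖LL 1 d (z j.succ)‖ ≤ (1 + Zc κ) ^ k := by
          calc ∏ j ∈ Iᶜ, ‖LL 1 d (z j.succ)‖ ≤ ∏ _j ∈ Iᶜ, (1 + Zc κ) := by
                refine Finset.prod_le_prod (fun _ _ => norm_nonneg _) fun j hj => ?_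
                have := LL_le d h hκ (hsI' j (Finset.mem_compl.1 hj))
                linarith
            _ = (1 + Zc κ) ^ (Iᶜ).card := Finset.prod_const _
            _ ≤ (1 + Zc κ) ^ k := by
                refine pow_le_pow_right₀ (by linarith) ?_
                have := Finset.card_le_univ (Iᶜ : Finset (Fin k))
                rwa [Fintype.card_fin] at this
        rw [mul_comm]
        exact mul_le_mul a2 a1 (Finset.prod_nonneg fun _ _ => norm_nonneg _) (by positivity)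
    · have : cd k M d z = 0 := by unfold cd; rw [if_neg h]
      rw [this, norm_zero]
      simp only [h, if_false, Finset.sum_const_zero]
      positivity
  -- the moments
  have hmom : ∀ j ∈ I, ∑ d ∈ Finset.Ico (2 ^ m) (2 ^ (m + 1)), (if Is 1 d then ‖LL 1 d (z j.succ)‖ ^ r else 0) ≤
      C' * (1 + Y) ^ N * ((2 : ℝ) ^ (m + 1)) ^ (1 + e0 / 2) := by
    intro j hj
    have a1 := hC (2 ^ (m + 1)) (z j.succ) hX1 (hsI j hj)
    have a2 : ∑ d ∈ Finset.Ico (2 ^ m) (2 ^ (m + 1)), (if Is 1 d then ‖LL 1 d (z j.succ)‖ ^ r else 0) ≤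
        ∑ q ∈ Q 1 ((2 : ℝ) ^ (m + 1)), ‖LL 1 q (z j.succ)‖ ^ r := by
      rw [← Finset.sum_filter]
      refine Finset.sum_le_sum_of_subset_of_nonneg ?_ fun _ _ _ => by positivity
      intro d hd
      rw [Finset.mem_filter, Finset.mem_Ico] at hd
      unfold Q
      rw [Finset.mem_filter, Finset.mem_Ico]
      refine ⟨⟨hd.2.1, ?_⟩, hd.2⟩
      have : ⌈(2 : ℝ) ^ (m + 1)⌉₊ = 2 ^ (m + 1) := by
        rw [show ((2 : ℝ) ^ (m + 1)) = ((2 ^ (m + 1) : ℕ) : ℝ) by push_cast; rfl, Nat.ceil_natCast]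
      rw [this]
      exact hd.1.2
    refine a2.trans (a1.trans ?_)
    have a3 : |(z j.succ).im| ≤ Y := norm_im_le z j.succ
    gcongr
    exact le_abs_self C
  have hcard : ((Finset.Ico (2 ^ m) (2 ^ (m + 1))).card : ℝ) = 2 ^ m := by
    rw [Nat.card_Ico]
    have : 2 ^ (m + 1) - 2 ^ m = 2 ^ m := by rw [pow_succ]; omega
    rw [this]
    push_cast
    rfl
  have hYN : 1 ≤ (1 + Y) ^ N := one_le_pow₀ (by linarith)
  have hp1 : ((2 : ℝ) ^ (m + 1)) ^ (1 + e0 / 2) = 2 ^ (1 + e0 / 2) * (2 : ℝ) ^ ((1 + e0 / 2) * m) := by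
    rw [← Real.rpow_natCast, ← Real.rpow_mul (by norm_num), ← Real.rpow_add (by norm_num)]
    congr 1
    push_cast
    ring
  have hp2 : (2 : ℝ) ^ m ≤ (2 : ℝ) ^ ((1 + e0 / 2) * m) := by
    rw [← Real.rpow_natCast]
    refine Real.rpow_le_rpow_of_exponent_le (by norm_num) ?_
    have : (0 : ℝ) ≤ m := Nat.cast_nonneg _
    nlinarith
  have hp3 : (2 : ℝ) ^ (-((1 + e0) * m)) * (2 : ℝ) ^ ((1 + e0 / 2) * m) = (2 : ℝ) ^ (-(e0 / 2 * m)) := by
    rw [← Real.rpow_add (by norm_num)]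
    congr 1
    ring
  have hpos3 : 0 ≤ (2 : ℝ) ^ (-((1 + e0) * m)) := Real.rpow_nonneg (by norm_num) _
  calc nblk k M m z ≤ ∑ d ∈ Finset.Ico (2 ^ m) (2 ^ (m + 1)),
        (2 : ℝ) ^ (-((1 + e0) * m)) * ((1 + Zc κ) ^ k * (1 + ∑ j ∈ I, if Is 1 d then ‖LL 1 d (z j.succ)‖ ^ r else 0)) :=
        Finset.sum_le_sum hterm
    _ = (2 : ℝ) ^ (-((1 + e0) * m)) * ((1 + Zc κ) ^ k * ((2 : ℝ) ^ m + ∑ j ∈ I,
          ∑ d ∈ Finset.Ico (2 ^ m) (2 ^ (m + 1)), if Is 1 d then ‖LL 1 d (z j.succ)‖ ^ r else 0)) := by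
        rw [← Finset.mul_sum, ← Finset.mul_sum, Finset.sum_add_distrib, Finset.sum_comm, Finset.sum_const,
          nsmul_eq_mul, mul_one, hcard]
    _ ≤ (2 : ℝ) ^ (-((1 + e0) * m)) * ((1 + Zc κ) ^ k * ((2 : ℝ) ^ m + ∑ _j ∈ I,
          C' * (1 + Y) ^ N * ((2 : ℝ) ^ (m + 1)) ^ (1 + e0 / 2))) := by
        have := Finset.sum_le_sum hmom
        gcongr
    _ = (2 : ℝ) ^ (-((1 + e0) * m)) * ((1 + Zc κ) ^ k * ((2 : ℝ) ^ m +
          I.card * (C' * (1 + Y) ^ N * (2 ^ (1 + e0 / 2) * (2 : ℝ) ^ ((1 + e0 / 2) * m))))) := by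
        rw [Finset.sum_const, nsmul_eq_mul, hp1]
    _ ≤ (2 : ℝ) ^ (-((1 + e0) * m)) * ((1 + Zc κ) ^ k * (2 * (1 + Y) ^ N * (2 : ℝ) ^ ((1 + e0 / 2) * m) +
          r * (C' * (1 + Y) ^ N * (2 ^ (1 + e0 / 2) * (2 : ℝ) ^ ((1 + e0 / 2) * m))))) := by
        have hI' : (I.card : ℝ) ≤ r := by exact_mod_cast hI
        have hb : (2 : ℝ) ^ m ≤ 2 * (1 + Y) ^ N * (2 : ℝ) ^ ((1 + e0 / 2) * m) := by
          have h5 : 0 ≤ (2 : ℝ) ^ ((1 + e0 / 2) * m) := Real.rpow_nonneg (by norm_num) _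
          nlinarith
        gcongr
    _ = (1 + Zc κ) ^ k * (2 + r * C' * 2 ^ (1 + e0 / 2)) * (1 + Y) ^ N *
          ((2 : ℝ) ^ (-((1 + e0) * m)) * (2 : ℝ) ^ ((1 + e0 / 2) * m)) := by ring
    _ = _ := by rw [hp3]

theorem summable_geo {ε : ℝ} (hε : 0 < ε) : Summable fun m : ℕ => (2 : ℝ) ^ (-(ε * m)) := by
  have e : (fun m : ℕ => (2 : ℝ) ^ (-(ε * m))) = fun m : ℕ => ((2 : ℝ) ^ (-ε)) ^ m := by
    funext m
    rw [← Real.rpow_natCast, ← Real.rpow_mul (by norm_num)]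
    congr 1
    ring
  rw [e]
  refine summable_geometric_of_lt_one (Real.rpow_nonneg (by norm_num) _) ?_
  exact Real.rpow_lt_one_of_one_lt_of_neg (by norm_num) (by linarith)

/-- partial sums -/
theorem sum_blocks {G : Type} [AddCommMonoid G] (f : ℕ → G) (h0 : f 0 = 0) (n : ℕ) :
    ∑ m ∈ Finset.range n, ∑ d ∈ Finset.Ico (2 ^ m) (2 ^ (m + 1)), f d = ∑ d ∈ Finset.range (2 ^ n), f d := by
  induction n with
  | zero => simp [h0]
  | succ n ih =>
    rw [Finset.sum_range_succ, ih, Finset.range_eq_Ico, Finset.range_eq_Ico]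
    exact Finset.sum_Ico_consecutive f (Nat.zero_le _) (Nat.pow_le_pow_right (by norm_num) (Nat.le_succ n))

theorem cd_zero (k M : ℕ) (z : Fin (k + 1) → ℂ) : cd k M 0 z = 0 := by
  unfold cd
  rw [if_neg]
  intro h
  have := h.1
  omega

theorem t_ABS (r : ℕ) : S_SER → S_LBD → S_MOM r → S_ABS r := by
  intro hS hL hM k M I hI
  have hT : Tempered (reg k I) (fun z => ∑' m, blk k M m z) := by
    refine hS (k + 1) _ (blk k M) (isOpen_reg k I) (fun m => ?_) ?_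
    · have : Differentiable ℂ (blk k M m) := by
        unfold blk
        exact Differentiable.fun_sum fun d _ => cd_diff hL k M d
      exact this.differentiableOn
    · intro K hK hc
      obtain ⟨C, N, ε, hε, hC, h⟩ := main_est r hM k M I hI K hK hc
      exact ⟨C, N, fun m => (2 : ℝ) ^ (-(ε * m)), summable_geo hε, fun m z hz => (blk_le k M m z).trans (h m z hz)⟩
  have heq : ∀ z ∈ tube (reg k I), Hs k M z = ∑' m, blk k M m z := by
    intro z hz
    obtain ⟨C, N, ε, hε, hC, h⟩ := main_est r hM k M I hI {fun i => (z i).re} (singleton_subset_iff.2 hz)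
      isCompact_singleton
    have h1 : ∀ m, nblk k M m z ≤ C * (1 + ‖fun i => (z i).im‖) ^ N * (2 : ℝ) ^ (-(ε * m)) :=
      fun m => h m z rfl
    have hsb : Summable fun m => nblk k M m z :=
      Summable.of_nonneg_of_le (fun m => Finset.sum_nonneg fun _ _ => norm_nonneg _) h1
        ((summable_geo hε).mul_left _)
    have hsn : Summable fun d => ‖cd k M d z‖ := by
      refine summable_of_sum_range_le (c := ∑' m, nblk k M m z) (fun d => norm_nonneg _) fun n => ?_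
      have e1 : ∑ d ∈ Finset.range n, ‖cd k M d z‖ ≤ ∑ d ∈ Finset.range (2 ^ n), ‖cd k M d z‖ :=
        Finset.sum_le_sum_of_subset_of_nonneg (Finset.range_mono (Nat.lt_two_pow_self).le) fun _ _ _ => norm_nonneg _
      refine e1.trans ?_
      rw [← sum_blocks (fun d => ‖cd k M d z‖) (by rw [cd_zero, norm_zero]) n]
      exact hsb.sum_le_tsum _ fun m _ => Finset.sum_nonneg fun _ _ => norm_nonneg _
    have hs : Summable fun d => cd k M d z := hsn.of_norm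
    have hsbl : Summable fun m => blk k M m z :=
      Summable.of_norm_bounded hsb fun m => blk_le k M m z
    have t1 := hs.hasSum.tendsto_sum_nat
    have t2 := hsbl.hasSum.tendsto_sum_nat
    have t3 : Tendsto (fun n : ℕ => ∑ d ∈ Finset.range (2 ^ n), cd k M d z) atTop (𝓝 (∑' d, cd k M d z)) :=
      t1.comp (tendsto_pow_atTop_atTop_of_one_lt (by norm_num))
    have t4 : (fun n : ℕ => ∑ m ∈ Finset.range n, blk k M m z) =
        fun n : ℕ => ∑ d ∈ Finset.range (2 ^ n), cd k M d z := by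
      funext n
      exact sum_blocks (fun d => cd k M d z) (cd_zero k M z) n
    rw [t4] at t2
    exact tendsto_nhds_unique t3 t2
  refine ⟨hT.1.congr heq, fun K hK hc => ?_⟩
  obtain ⟨C, N, h⟩ := hT.2 K hK hc
  refine ⟨C, N, fun z hz => ?_⟩
  rw [heq z (hK hz)]
  exact h z hz

end Pool.Agent.Run7.h24.MD
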