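import Pool.Agent.Run7.h473.MD.Iface

/-! # Project MD (helper473), piece BIG (helper24), and common lemmas -/

set_option autoImplicit false

namespace Pool.Agent.Run7.h24.MD

open Complex Filter Topology MeasureTheory Set
open Pool.Agent.Q48.MDS Pool.Agent.N879.QM Pool.Agent.Run7.h473.MD

theorem diff_prod {E : Type} [NormedAddCommGroup E] [NormedSpace ℂ E] {ι : Type} (s : Finset ι) (f : ι → E → ℂ)
    (h : ∀ i ∈ s, Differentiable ℂ (f i)) : Differentiable ℂ (fun x => ∏ i ∈ s, f i x) := by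
  classical
  induction s using Finset.induction_on with
  | empty => simp
  | insert a s ha ih =>
    simp only [Finset.prod_insert ha]
    exact (h a (Finset.mem_insert_self _ _)).mul (ih fun i hi => h i (Finset.mem_insert_of_mem hi))

theorem cd_diff (hL : S_LBD) (k M d : ℕ) : Differentiable ℂ (cd k M d) := by
  unfold cd
  by_cases h : Is 1 d
  · simp only [h, if_true]
    have hd : (d : ℂ) ≠ 0 := by
      have := h.1
      exact_mod_cast (by omega : d ≠ 0)
    refine Differentiable.mul (Differentiable.mul (differentiable_const _) ?_) ?_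
    · have h0 : Differentiable ℂ fun z : Fin (k + 1) → ℂ => -(z 0) := (differentiable_apply 0).neg
      exact h0.const_cpow (Or.inl hd)
    · have hh : ∀ j ∈ (Finset.univ : Finset (Fin k)), Differentiable ℂ
          (fun z : Fin (k + 1) → ℂ => LL 1 d (z j.succ)) := fun j _ =>
        (hL d h).1.comp (differentiable_apply j.succ)
      exact diff_prod _ (fun (j : Fin k) (z : Fin (k + 1) → ℂ) => LL 1 d (z j.succ)) hh
  · simp only [h, if_false]
    exact differentiable_const _

theorem norm_cd_le (k M d : ℕ) (h : Is 1 d) (z : Fin (k + 1) → ℂ) :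
    ‖cd k M d z‖ ≤ (d : ℝ) ^ (-(z 0).re) * ∏ j : Fin k, ‖LL 1 d (z j.succ)‖ := by
  unfold cd
  rw [if_pos h, norm_mul, norm_mul, norm_prod]
  refine mul_le_mul_of_nonneg_right ?_ (Finset.prod_nonneg fun _ _ => norm_nonneg _)
  rw [Complex.norm_natCast_cpow_of_pos (by have := h.1; omega), Complex.neg_re]
  exact mul_le_of_le_one_left (Real.rpow_nonneg (Nat.cast_nonneg _) _) (DirichletCharacter.norm_le_one _ _)

theorem exists_pos_le {X : Type} [TopologicalSpace X] {K : Set X} (hK : IsCompact K) {f : X → ℝ}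
    (hf : Continuous f) (hpos : ∀ p ∈ K, 0 < f p) : ∃ δ : ℝ, 0 < δ ∧ ∀ p ∈ K, δ ≤ f p := by
  rcases K.eq_empty_or_nonempty with rfl | hne
  · exact ⟨1, one_pos, fun p hp => absurd hp (notMem_empty p)⟩
  · obtain ⟨p0, h0, h1⟩ := hK.exists_isMinOn hne hf.continuousOn
    exact ⟨f p0, hpos p0 h0, fun p hp => h1 hp⟩

theorem fin_pos {n : ℕ} (δ : Fin n → ℝ) (h : ∀ j, 0 < δ j) : ∃ e : ℝ, 0 < e ∧ ∀ j, e ≤ δ j := by
  rcases isEmpty_or_nonempty (Fin n) with he | hne
  · exact ⟨1, one_pos, fun j => he.elim j⟩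
  · obtain ⟨j0, hj0⟩ := Finite.exists_min δ
    exact ⟨δ j0, h j0, hj0⟩

theorem norm_im_le {n : ℕ} (z : Fin n → ℂ) (i : Fin n) : |(z i).im| ≤ ‖fun i => (z i).im‖ :=
  norm_le_pi_norm (fun i => (z i).im) i

theorem norm_re_le {n : ℕ} (z : Fin n → ℂ) (i : Fin n) : |(z i).re| ≤ ‖fun i => (z i).re‖ :=
  norm_le_pi_norm (fun i => (z i).re) i

theorem t_BIG : S_SER → S_LBD → Pool.Agent.Run7.h473.MD.S_BIG := by
  intro hS hL k M
  have hopen : IsOpen {p : Fin (k + 1) → ℝ | (k : ℝ) + 1 < p 0 ∧ ∀ j : Fin k, 0 < p j.succ} := by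
    have e : {p : Fin (k + 1) → ℝ | (k : ℝ) + 1 < p 0 ∧ ∀ j : Fin k, 0 < p j.succ} =
        {p | (k : ℝ) + 1 < p 0} ∩ ⋂ j : Fin k, {p | 0 < p j.succ} := by
      ext p; simp
    rw [e]
    exact (isOpen_lt continuous_const (continuous_apply 0)).inter
      (isOpen_iInter_of_finite fun j => isOpen_lt continuous_const (continuous_apply _))
  refine hS (k + 1) _ (cd k M) hopen (fun d => (cd_diff hL k M d).differentiableOn) ?_
  intro K hK hc
  obtain ⟨δ0, hδ0, h0⟩ := exists_pos_le hc (f := fun p : Fin (k + 1) → ℝ => p 0 - (k + 1))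
    ((continuous_apply 0).sub continuous_const) (fun p hp => by have := (hK hp).1; linarith)
  choose δ hδ h1 using fun j : Fin k => exists_pos_le hc (f := fun p : Fin (k + 1) → ℝ => p j.succ)
    (continuous_apply _) (fun p hp => (hK hp).2 j)
  obtain ⟨e, he, h2⟩ := fin_pos δ hδ
  obtain ⟨R, hR⟩ := hc.isBounded.exists_norm_le
  refine ⟨((1 + |R|) / e) ^ k, k, fun d => (d : ℝ) ^ (-(1 + δ0)), ?_, ?_⟩
  · rw [Real.summable_nat_rpow]
    linarith
  · intro d z hz
    set Y := ‖fun i => (z i).im‖ with hY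
    have hY0 : 0 ≤ Y := norm_nonneg _
    have hR1 : 0 ≤ (1 + |R|) / e := by positivity
    by_cases h : Is 1 d
    · have hd1 : (1 : ℝ) ≤ d := by have := h.1; exact_mod_cast (by omega : 1 ≤ d)
      have hd0 : (0 : ℝ) < d := by linarith
      have hb : ∀ j : Fin k, ‖LL 1 d (z j.succ)‖ ≤ d * ((1 + |R|) / e * (1 + Y)) := by
        intro j
        have g1 : e ≤ (z j.succ).re := (h2 j).trans (h1 j _ hz)
        have g2 := (hL d h).2 (z j.succ) (by linarith)
        refine g2.trans ?_
        rw [mul_div_assoc]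
        refine mul_le_mul_of_nonneg_left ?_ hd0.le
        have g3 : ‖z j.succ‖ ≤ (1 + |R|) * (1 + Y) := by
          have a1 := Complex.norm_le_abs_re_add_abs_im (z j.succ)
          have a2 := norm_im_le z j.succ
          have a3 := (norm_re_le z j.succ).trans ((hR _ hz).trans (le_abs_self R))
          nlinarith [abs_nonneg R, mul_nonneg (abs_nonneg R) hY0]
        calc ‖z j.succ‖ / (z j.succ).re ≤ (1 + |R|) * (1 + Y) / e := by
              gcongr
          _ = (1 + |R|) / e * (1 + Y) := by ring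
      have hw : (k : ℝ) + 1 + δ0 ≤ (z 0).re := by
        have : δ0 ≤ (z 0).re - (k + 1) := h0 _ hz
        linarith
      calc ‖cd k M d z‖ ≤ (d : ℝ) ^ (-(z 0).re) * ∏ j : Fin k, ‖LL 1 d (z j.succ)‖ := norm_cd_le k M d h z
        _ ≤ (d : ℝ) ^ (-((k : ℝ) + 1 + δ0)) * ∏ _j : Fin k, (d * ((1 + |R|) / e * (1 + Y))) := by
            refine mul_le_mul ?_ ?_ (Finset.prod_nonneg fun _ _ => norm_nonneg _) (by positivity)
            · exact Real.rpow_le_rpow_of_exponent_le hd1 (by linarith)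
            · exact Finset.prod_le_prod (fun _ _ => norm_nonneg _) fun j _ => hb j
        _ = (d : ℝ) ^ (-((k : ℝ) + 1 + δ0)) * ((d : ℝ) ^ (k : ℝ) * (((1 + |R|) / e) ^ k * (1 + Y) ^ k)) := by
            rw [Finset.prod_const, Finset.card_univ, Fintype.card_fin, mul_pow, mul_pow, Real.rpow_natCast]
        _ = ((1 + |R|) / e) ^ k * (1 + Y) ^ k * (d : ℝ) ^ (-(1 + δ0)) := by
            rw [show (-(1 + δ0) : ℝ) = -((k : ℝ) + 1 + δ0) + k by ring, Real.rpow_add hd0]
            ring
    · have : cd k M d z = 0 := by unfold cd; rw [if_neg h]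
      rw [this, norm_zero]
      positivity

end Pool.Agent.Run7.h24.MD
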